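import Mathlib

set_option autoImplicit false

namespace Pool.Agent.Results.MP_773328_co.HookParity

open PowerSeries Finset

/-- `F(z) = ∑_k (-1)^k z^(2k+1) / (k! (k+1)! (2k+1))`, as a power series over `ℚ`
(the coefficient of `z^n` is nonzero only for odd `n = 2k+1`, and then `k = n / 2`). -/
noncomputable def F : PowerSeries ℚ :=
  PowerSeries.mk fun n =>
    if n % 2 = 1 then
      (-1 : ℚ) ^ (n / 2) / (((n / 2).factorial : ℚ) * ((n / 2 + 1).factorial : ℚ) * (n : ℚ))
    else 0

/-- `a n = n! [z^n] (-log (1 - F(z)))`. -/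
noncomputable def a (n : ℕ) : ℚ :=
  (n.factorial : ℚ) * coeff n (-(logOf (1 - F)))

/-! ### Parity of Catalan numbers -/

lemma catalan_even_index (l : ℕ) (hl : 1 ≤ l) : Even (catalan (2 * l)) := by
  obtain ⟨m, rfl⟩ : ∃ m, l = m + 1 := ⟨l - 1, by omega⟩
  have h : 2 * (m + 1) = (2 * m + 1) + 1 := by ring
  rw [h, catalan_succ', Finset.Nat.sum_antidiagonal_eq_sum_range_succ_mk]
  have h2 : (2 * m + 1).succ = (m + 1) + (m + 1) := by omega
  rw [h2, Finset.sum_range_add]
  have h3 : ∑ x ∈ range (m + 1), catalan (m + 1 + x) * catalan (2 * m + 1 - (m + 1 + x)) =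
      ∑ x ∈ range (m + 1), catalan x * catalan (2 * m + 1 - x) := by
    rw [← Finset.sum_range_reflect]
    refine Finset.sum_congr rfl fun x hx => ?_
    have hx' := Finset.mem_range.1 hx
    have e1 : m + 1 + (m + 1 - 1 - x) = 2 * m + 1 - x := by omega
    have e2 : 2 * m + 1 - (m + 1 + (m + 1 - 1 - x)) = x := by omega
    rw [e2, e1, mul_comm]
  simp only [h3]
  exact ⟨_, rfl⟩

lemma catalan_odd_index (l : ℕ) : (catalan (2 * l + 1) : ZMod 2) = (catalan l : ZMod 2) := by
  rw [catalan_succ', Finset.Nat.sum_antidiagonal_eq_sum_range_succ_mk]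
  have h2 : (2 * l).succ = l + (l + 1) := by omega
  rw [h2, Finset.sum_range_add, Finset.sum_range_succ' _ l]
  have h3 : ∑ x ∈ range l, catalan (l + (x + 1)) * catalan (2 * l - (l + (x + 1))) =
      ∑ x ∈ range l, catalan x * catalan (2 * l - x) := by
    rw [← Finset.sum_range_reflect]
    refine Finset.sum_congr rfl fun x hx => ?_
    have hx' := Finset.mem_range.1 hx
    have e1 : l + (l - 1 - x + 1) = 2 * l - x := by omega
    have e2 : 2 * l - (l + (l - 1 - x + 1)) = x := by omega
    rw [e2, e1, mul_comm]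
  simp only [h3]
  have e3 : l + 0 = l := rfl
  have e4 : 2 * l - (l + 0) = l := by omega
  rw [e4, e3]
  push_cast
  have key : ∀ y : ZMod 2, y + y = 0 := by decide
  have key2 : ∀ y : ZMod 2, y * y = y := by decide
  rw [← add_assoc, key, zero_add, key2]

lemma catalan_odd_index' (l : ℕ) : Odd (catalan (2 * l + 1)) ↔ Odd (catalan l) := by
  rw [← ZMod.natCast_eq_one_iff_odd, ← ZMod.natCast_eq_one_iff_odd, catalan_odd_index]

lemma catalan_odd_iff (k : ℕ) : Odd (catalan k) ↔ ∃ r, k + 1 = 2 ^ r := by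
  induction k using Nat.strong_induction_on with
  | _ k ih =>
    rcases Nat.eq_zero_or_pos k with rfl | hk
    · simp only [catalan_zero, odd_one, true_iff]
      exact ⟨0, rfl⟩
    · rcases Nat.even_or_odd' k with ⟨l, h | h⟩
      · subst h
        constructor
        · intro ho
          have := catalan_even_index l (by omega)
          exact absurd ho (Nat.not_odd_iff_even.2 this)
        · rintro ⟨r, hr⟩
          cases r with
          | zero => omega
          | succ r => rw [pow_succ] at hr; omega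
      · subst h
        rw [catalan_odd_index', ih l (by omega)]
        constructor
        · rintro ⟨r, hr⟩
          exact ⟨r + 1, by rw [pow_succ]; omega⟩
        · rintro ⟨r, hr⟩
          cases r with
          | zero => simp at hr
          | succ r => exact ⟨r, by rw [pow_succ] at hr; omega⟩

/-! ### The integer coefficients of `F` -/

/-- `m!` times the coefficient of `z^m` in `F`. -/
def f (m : ℕ) : ℤ := if m % 2 = 1 then (-1) ^ (m / 2) * (catalan (m / 2) : ℤ) else 0

lemma f_even (m : ℕ) (h : m % 2 = 0) : f m = 0 := by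
  unfold f
  rw [if_neg (by omega)]

lemma coeff_F (m : ℕ) : coeff m F = (f m : ℚ) / (m.factorial : ℚ) := by
  unfold F f
  rw [coeff_mk]
  split_ifs with h
  · obtain ⟨k, rfl⟩ : ∃ k, m = 2 * k + 1 := ⟨m / 2, by omega⟩
    have e : (2 * k + 1) / 2 = k := by omega
    rw [e]
    have h1 := succ_mul_catalan_eq_centralBinom k
    have h2 := Nat.succ_mul_centralBinom_succ k
    have h3 : k.centralBinom * (k.factorial * k.factorial) = (2 * k).factorial := by
      have := Nat.choose_mul_factorial_mul_factorial (show k ≤ 2 * k by omega)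
      rw [Nat.centralBinom, ← this]
      have e2 : 2 * k - k = k := by omega
      rw [e2]; ring
    have h4 : ((2 * k + 1).factorial : ℚ) = (2 * k + 1) * ((k + 1) * catalan k * (k.factorial * k.factorial)) := by
      rw [Nat.factorial_succ, ← h3, ← h1]
      push_cast; ring
    have hk : (k.factorial : ℚ) ≠ 0 := by exact_mod_cast k.factorial_ne_zero
    have hk1 : ((k : ℚ) + 1) ≠ 0 := by positivity
    have hc : (catalan k : ℚ) ≠ 0 := by
      intro h0
      have h0' : catalan k = 0 := by exact_mod_cast h0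
      rw [h0', mul_zero] at h1
      exact (Nat.centralBinom_pos k).ne h1
    rw [h4, Nat.factorial_succ]
    push_cast
    field_simp
  · simp

/-! ### Logarithmic derivative -/

lemma deriv_logOf (g : PowerSeries ℚ) (hg : constantCoeff g = 1) :
    d⁄dX ℚ (logOf g) * g = d⁄dX ℚ g := by
  have hs : HasSubst (g - 1) := by
    apply HasSubst.of_constantCoeff_zero'
    rw [map_sub, hg, map_one, sub_self]
  rw [logOf_eq, derivative_subst hs, deriv_log]
  have h1 : (mk fun n => algebraMap ℚ ℚ ((-1 : ℚ) ^ n)) * (1 + X : PowerSeries ℚ) = 1 := by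
    ext n
    rw [mul_add, mul_one, map_add]
    cases n with
    | zero => simp
    | succ n =>
      rw [coeff_succ_mul_X, coeff_mk, coeff_mk, coeff_one]
      simp only [eq_ratCast, Rat.cast_pow, Rat.cast_neg, Rat.cast_one]
      rw [if_neg (by omega), pow_succ]
      ring
  have h2 := congrArg (fun s : PowerSeries ℚ => s.subst (g - 1)) h1
  simp only [subst_mul hs, subst_add hs, subst_X hs] at h2
  have h3 : (1 : PowerSeries ℚ).subst (g - 1) = (1 : PowerSeries ℚ) := by
    rw [← coe_substAlgHom hs, map_one]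
  rw [h3] at h2
  rw [show (1 : PowerSeries ℚ) + (g - 1) = g by ring] at h2
  rw [map_sub, derivative_one, sub_zero]
  calc _ = (subst (g - 1) (mk fun n => algebraMap ℚ ℚ ((-1 : ℚ) ^ n)) * g) * d⁄dX ℚ g := by ring
    _ = _ := by rw [h2, one_mul]

lemma constantCoeff_F : constantCoeff F = 0 := by
  rw [← coeff_zero_eq_constantCoeff_apply, coeff_F]
  simp [f]

lemma deriv_eq : d⁄dX ℚ (-(logOf (1 - F))) = d⁄dX ℚ F + d⁄dX ℚ (-(logOf (1 - F))) * F := by
  have h := deriv_logOf (1 - F) (by rw [map_sub, map_one, constantCoeff_F, sub_zero])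
  rw [map_sub, derivative_one, zero_sub] at h
  rw [map_neg]
  linear_combination (-1 : PowerSeries ℚ) * h

lemma rec_a (n : ℕ) :
    a (n + 1) = f (n + 1) + ∑ i ∈ range n, (n.choose i : ℚ) * a (i + 1) * f (n - i) := by
  have h := congrArg (coeff n) deriv_eq
  rw [map_add, coeff_derivative, coeff_derivative, coeff_mul,
    Finset.Nat.sum_antidiagonal_eq_sum_range_succ_mk, Finset.sum_range_succ] at h
  have h0 : coeff (n - n) F = 0 := by
    rw [coeff_F, Nat.sub_self]; simp [f]
  simp only [h0, mul_zero, add_zero] at h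
  have hA : a (n + 1) = (n.factorial : ℚ) * (coeff (n + 1) (-(logOf (1 - F))) * (n + 1)) := by
    unfold a
    rw [Nat.factorial_succ]; push_cast; ring
  rw [hA, h, mul_add, Finset.mul_sum]
  have hn : (n.factorial : ℚ) ≠ 0 := by exact_mod_cast n.factorial_ne_zero
  congr 1
  · rw [coeff_F, Nat.factorial_succ]
    push_cast
    have : ((n : ℚ) + 1) ≠ 0 := by positivity
    field_simp
  · refine Finset.sum_congr rfl fun i hi => ?_
    have hi' := Finset.mem_range.1 hi
    rw [coeff_derivative, coeff_F]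
    unfold a
    have h5 := Nat.choose_mul_factorial_mul_factorial (show i ≤ n by omega)
    have h6 : (n.factorial : ℚ) = n.choose i * i.factorial * (n - i).factorial := by
      rw [← h5]; push_cast; ring
    have h7 : ((n - i).factorial : ℚ) ≠ 0 := by exact_mod_cast (n - i).factorial_ne_zero
    rw [h6, Nat.factorial_succ]
    push_cast
    field_simp

/-! ### The parity computation -/

lemma four_dvd (m : ℕ) (hm : m % 2 = 1) (h3 : 3 ≤ m) : 4 ∣ m.centralBinom := by
  obtain ⟨l, rfl⟩ : ∃ l, m = 2 * l + 1 := ⟨m / 2, by omega⟩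
  rw [← succ_mul_catalan_eq_centralBinom]
  have h1 : 2 ∣ (l + 1) * catalan (2 * l + 1) := by
    rw [← even_iff_two_dvd, Nat.even_mul]
    by_contra hcon
    rw [not_or, Nat.not_even_iff_odd, Nat.not_even_iff_odd, catalan_odd_index'] at hcon
    have h4 : Odd ((l + 1) * catalan l) := hcon.1.mul hcon.2
    rw [succ_mul_catalan_eq_centralBinom] at h4
    have h5 : 2 ∣ l.centralBinom := by
      obtain ⟨j, rfl⟩ : ∃ j, l = j + 1 := ⟨l - 1, by omega⟩
      exact Nat.two_dvd_centralBinom_succ j
    exact absurd h4 (Nat.not_odd_iff_even.2 (even_iff_two_dvd.2 h5))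
  obtain ⟨c, hc⟩ := h1
  refine ⟨c, ?_⟩
  calc (2 * l + 1 + 1) * catalan (2 * l + 1) = 2 * ((l + 1) * catalan (2 * l + 1)) := by ring
    _ = 4 * c := by rw [hc]; ring

lemma two_pow_dvd_choose (N j c : ℕ) (hj : j % 2 = 1) (hc : 2 ^ c ∣ N) : 2 ^ c ∣ N.choose j := by
  rcases Nat.eq_zero_or_pos N with h0 | h0
  · subst h0
    obtain ⟨i, rfl⟩ : ∃ i, j = i + 1 := ⟨j - 1, by omega⟩
    simp
  obtain ⟨i, rfl⟩ : ∃ i, j = i + 1 := ⟨j - 1, by omega⟩
  obtain ⟨M, rfl⟩ : ∃ M, N = M + 1 := ⟨N - 1, by omega⟩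
  have h := Nat.add_one_mul_choose_eq M i
  have h2 : 2 ^ c ∣ (M + 1).choose (i + 1) * (i + 1) := by
    rw [← h]; exact Dvd.dvd.mul_right hc _
  have h3 : Nat.Coprime (2 ^ c) (i + 1) := by
    apply Nat.Coprime.pow_left
    rw [Nat.coprime_two_left]
    exact Nat.odd_iff.2 hj
  exact h3.dvd_of_dvd_mul_right h2

lemma parity_sum (n : ℕ) (hn : 3 ≤ n) (ho : n % 2 = 1) :
    (2 : ℤ) ∣ ∑ i ∈ range n, (n.choose i : ℤ) * f (i + 1) * f (n - i) := by
  have hS : 2 * ∑ i ∈ range n, (n.choose i : ℤ) * f (i + 1) * f (n - i) =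
      ∑ i ∈ range n, ((n + 1).choose (i + 1) : ℤ) * f (i + 1) * f (n - i) := by
    rw [two_mul]
    conv_lhs => rw [← Finset.sum_range_reflect (fun i => (n.choose i : ℤ) * f (i + 1) * f (n - i)) n]
    conv_lhs => lhs; rw [Finset.sum_range_reflect (fun i => (n.choose i : ℤ) * f (i + 1) * f (n - i)) n]
    rw [← Finset.sum_add_distrib]
    refine Finset.sum_congr rfl fun i hi => ?_
    have hi' := Finset.mem_range.1 hi
    have e1 : n - 1 - i + 1 = n - i := by omega
    have e2 : n - (n - 1 - i) = i + 1 := by omega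
    rw [e1, e2, Nat.choose_succ_succ]
    have e3 : n.choose (n - 1 - i) = n.choose (i + 1) := by
      rw [← Nat.choose_symm (show n - 1 - i ≤ n by omega), e2]
    rw [e3]
    push_cast
    ring
  suffices h4 : (4 : ℤ) ∣ ∑ i ∈ range n, ((n + 1).choose (i + 1) : ℤ) * f (i + 1) * f (n - i) by
    rw [← hS] at h4
    obtain ⟨c, hc⟩ := h4
    exact ⟨c, by linarith⟩
  obtain ⟨m, hm⟩ : ∃ m, n + 1 = 2 * m := ⟨(n + 1) / 2, by omega⟩
  rcases Nat.even_or_odd m with he | hom
  · obtain ⟨q, hq⟩ := he
    apply Finset.dvd_sum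
    intro i hi
    have hi' := Finset.mem_range.1 hi
    rcases Nat.mod_two_eq_zero_or_one (i + 1) with h0 | h1
    · rw [f_even _ h0]; simp
    · have := two_pow_dvd_choose (n + 1) (i + 1) 2 h1 ⟨q, by omega⟩
      have h5 : (4 : ℤ) ∣ ((n + 1).choose (i + 1) : ℤ) := by exact_mod_cast this
      exact Dvd.dvd.mul_right (Dvd.dvd.mul_right h5 _) _
  · have hm' : m % 2 = 1 := Nat.odd_iff.1 hom
    have hnm : n = (m - 1) + (1 + (m - 1)) := by omega
    have hsplit : ∑ i ∈ range n, ((n + 1).choose (i + 1) : ℤ) * f (i + 1) * f (n - i) =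
        2 * ∑ i ∈ range (m - 1), ((n + 1).choose (i + 1) : ℤ) * f (i + 1) * f (n - i) +
          ((n + 1).choose m : ℤ) * f m * f m := by
      conv_lhs => rw [show range n = range ((m - 1) + (1 + (m - 1))) by rw [← hnm]]
      rw [Finset.sum_range_add, Finset.sum_range_add]
      rw [Finset.sum_range_one]
      have e1 : m - 1 + 0 + 1 = m := by omega
      have e2 : n - (m - 1 + 0) = m := by omega
      rw [e1, e2]
      have h6 : ∑ x ∈ range (m - 1), ((n + 1).choose (m - 1 + (1 + x) + 1) : ℤ) *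
            f (m - 1 + (1 + x) + 1) * f (n - (m - 1 + (1 + x))) =
          ∑ i ∈ range (m - 1), ((n + 1).choose (i + 1) : ℤ) * f (i + 1) * f (n - i) := by
        rw [← Finset.sum_range_reflect]
        refine Finset.sum_congr rfl fun i hi => ?_
        have hi' := Finset.mem_range.1 hi
        have e3 : m - 1 + (1 + (m - 1 - 1 - i)) + 1 = n - i := by omega
        have e4 : n - (m - 1 + (1 + (m - 1 - 1 - i))) = i + 1 := by omega
        rw [e3, e4]
        have e5 : (n + 1).choose (n - i) = (n + 1).choose (i + 1) := by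
          rw [← Nat.choose_symm (show n - i ≤ n + 1 by omega)]
          congr 1
          omega
        rw [e5]; ring
      rw [h6]; ring
    rw [hsplit]
    apply dvd_add
    · have h7 : (2 : ℤ) ∣ ∑ i ∈ range (m - 1), ((n + 1).choose (i + 1) : ℤ) * f (i + 1) * f (n - i) := by
        apply Finset.dvd_sum
        intro i hi
        rcases Nat.mod_two_eq_zero_or_one (i + 1) with h0 | h1
        · rw [f_even _ h0]; simp
        · have := two_pow_dvd_choose (n + 1) (i + 1) 1 h1 ⟨m, by omega⟩
          have h5 : (2 : ℤ) ∣ ((n + 1).choose (i + 1) : ℤ) := by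
            rw [pow_one] at this
            exact_mod_cast this
          exact Dvd.dvd.mul_right (Dvd.dvd.mul_right h5 _) _
      obtain ⟨c, hc⟩ := h7
      rw [hc]
      exact ⟨c, by ring⟩
    · have h8 := four_dvd m hm' (by omega)
      have h9 : (n + 1).choose m = m.centralBinom := by rw [hm, Nat.centralBinom]
      rw [h9]
      have h10 : (4 : ℤ) ∣ (m.centralBinom : ℤ) := by exact_mod_cast h8
      exact Dvd.dvd.mul_right (Dvd.dvd.mul_right h10 _) _

/-- `R x y`: the rational `x` is an integer congruent to `y` modulo `2`. -/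
def R (x : ℚ) (y : ℤ) : Prop := ∃ k : ℤ, x = ((y + 2 * k : ℤ) : ℚ)

lemma R_add {x x' : ℚ} {y y' : ℤ} (h : R x y) (h' : R x' y') : R (x + x') (y + y') := by
  obtain ⟨k, rfl⟩ := h
  obtain ⟨k', rfl⟩ := h'
  exact ⟨k + k', by push_cast; ring⟩

lemma R_mul {x x' : ℚ} {y y' : ℤ} (h : R x y) (h' : R x' y') : R (x * x') (y * y') := by
  obtain ⟨k, rfl⟩ := h
  obtain ⟨k', rfl⟩ := h'
  exact ⟨y * k' + k * y' + 2 * k * k', by push_cast; ring⟩

lemma R_int (y : ℤ) : R (y : ℚ) y := ⟨0, by simp⟩

lemma R_nat (y : ℕ) : R (y : ℚ) (y : ℤ) := ⟨0, by simp⟩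

lemma R_sum (s : Finset ℕ) (u : ℕ → ℚ) (v : ℕ → ℤ) (h : ∀ i ∈ s, R (u i) (v i)) :
    R (∑ i ∈ s, u i) (∑ i ∈ s, v i) := by
  induction s using Finset.induction_on with
  | empty => exact ⟨0, by simp⟩
  | insert a s ha ih =>
    rw [Finset.sum_insert ha, Finset.sum_insert ha]
    exact R_add (h a (Finset.mem_insert_self a s))
      (ih fun i hi => h i (Finset.mem_insert_of_mem hi))

lemma R_congr {x : ℚ} {y y' : ℤ} (h : R x y) (h2 : (2 : ℤ) ∣ y - y') : R x y' := by
  obtain ⟨k, rfl⟩ := h
  obtain ⟨c, hc⟩ := h2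
  refine ⟨k + c, ?_⟩
  have : y = y' + 2 * c := by linarith
  rw [this]; push_cast; ring

lemma main (n : ℕ) : R (a (n + 1)) (f (n + 1) + if n = 1 then 1 else 0) := by
  induction n using Nat.strong_induction_on with
  | _ n ih =>
    rw [rec_a]
    refine R_add (R_int _) ?_
    have h1 : R (∑ i ∈ range n, (n.choose i : ℚ) * a (i + 1) * f (n - i))
        (∑ i ∈ range n, (n.choose i : ℤ) * (f (i + 1) + if i = 1 then 1 else 0) * f (n - i)) := by
      apply R_sum
      intro i hi
      exact R_mul (R_mul (R_nat _) (ih i (Finset.mem_range.1 hi))) (R_int _)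
    refine R_congr h1 ?_
    have h2 : ∑ i ∈ range n, (n.choose i : ℤ) * (f (i + 1) + if i = 1 then 1 else 0) * f (n - i) =
        ∑ i ∈ range n, (n.choose i : ℤ) * f (i + 1) * f (n - i) +
          (if 1 < n then (n : ℤ) * f (n - 1) else 0) := by
      have h3 : ∀ i ∈ range n, (n.choose i : ℤ) * (f (i + 1) + if i = 1 then 1 else 0) * f (n - i) =
          (n.choose i : ℤ) * f (i + 1) * f (n - i) +
            (if i = 1 then (n : ℤ) * f (n - 1) else 0) := by
        intro i _
        split_ifs with h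
        · subst h; rw [Nat.choose_one_right]; ring
        · ring
      rw [Finset.sum_congr rfl h3, Finset.sum_add_distrib]
      congr 1
      rw [Finset.sum_ite_eq']
      simp only [Finset.mem_range]
    rw [h2]
    rcases Nat.lt_or_ge n 3 with h3 | h3
    · interval_cases n
      · simp
      · simp [f, catalan_zero]
      · have e : ∑ i ∈ range 2, ((2 : ℕ).choose i : ℤ) * f (i + 1) * f (2 - i) = 0 := by
          rw [Finset.sum_range_succ, Finset.sum_range_one]
          have e1 : f (2 - 0) = 0 := f_even _ (by norm_num)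
          rw [e1]; ring
        rw [e]
        norm_num
    · rw [if_pos (show 1 < n by omega), if_neg (show ¬ n = 1 by omega), sub_zero]
      rcases Nat.mod_two_eq_zero_or_one n with he | ho
      · apply dvd_add
        · apply Finset.dvd_sum
          intro i hi
          have hi' := Finset.mem_range.1 hi
          rcases Nat.mod_two_eq_zero_or_one (i + 1) with h0 | h1
          · rw [f_even _ h0]; simp
          · rw [f_even (n - i) (by omega)]; simp
        · have : (2 : ℤ) ∣ (n : ℤ) := by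
            have : 2 ∣ n := Nat.dvd_of_mod_eq_zero he
            exact_mod_cast this
          exact Dvd.dvd.mul_right this _
      · rw [f_even (n - 1) (by omega), mul_zero, add_zero]
        exact parity_sum n h3 ho

lemma odd_f (n : ℕ) : Odd (f (n + 1)) ↔ ∃ k, n + 1 + 1 = 2 ^ k ∧ n % 2 = 0 := by
  unfold f
  split_ifs with h
  · obtain ⟨k, rfl⟩ : ∃ k, n = 2 * k := ⟨n / 2, by omega⟩
    have e : (2 * k + 1) / 2 = k := by omega
    rw [e, Int.odd_mul]
    have h1 : Odd ((-1 : ℤ) ^ k) := Odd.pow (by decide)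
    simp only [h1, true_and]
    rw [Int.odd_coe_nat, catalan_odd_iff]
    constructor
    · rintro ⟨r, hr⟩
      exact ⟨r + 1, by rw [pow_succ, ← hr]; ring, by omega⟩
    · rintro ⟨r, hr, _⟩
      cases r with
      | zero => omega
      | succ r => exact ⟨r, by rw [pow_succ] at hr; omega⟩
  · constructor
    · intro h0; exact absurd h0 (by decide)
    · rintro ⟨k, hk, h2⟩
      omega

/-- For every `n ≥ 3` the number `a n` is an integer, and it is odd if and only if
`n + 1` is a power of two. -/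
theorem result :
    ∀ n : ℕ, 3 ≤ n → ∃ m : ℤ, a n = (m : ℚ) ∧ (Odd m ↔ ∃ k : ℕ, n + 1 = 2 ^ k) := by
  intro n hn
  obtain ⟨j, rfl⟩ : ∃ j, n = j + 1 := ⟨n - 1, by omega⟩
  obtain ⟨k, hk⟩ := main j
  refine ⟨_, hk, ?_⟩
  rw [if_neg (by omega), add_zero]
  have h1 : Odd (f (j + 1) + 2 * k) ↔ Odd (f (j + 1)) := by
    rw [Int.odd_add]
    have : Even (2 * k) := even_two_mul k
    simp [this]
  rw [h1, odd_f]
  constructor
  · rintro ⟨r, hr, _⟩
    exact ⟨r, hr⟩
  · rintro ⟨r, hr⟩
    refine ⟨r, hr, ?_⟩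
    cases r with
    | zero => omega
    | succ r => rw [pow_succ] at hr; omega

end Pool.Agent.Results.MP_773328_co.HookParity
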